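import Pool.Agent.V11237.LP.Short

set_option autoImplicit false

/-!
# Almost primes `m` with `√n < √m ≤ √n + 1`: the numbers and the laws of the gaps

Call `m` good if it has no prime factor up to `n ^ (1 / r)`. Andrica's conjecture says that for every prime
`n` there is a prime `m` with `√n < √m < √n + 1`. For good integers more is true: in EVERY interval
`(u, u + Y]` with `n ≤ u`, `√(u + Y) ≤ √n + 1` and `Y ≥ n ^ θ` the distances of the good integers to the
`l`-th good integer before them have the Gamma distributions of a Poisson process of density `U`, the product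
of `1 - 1 / p` over the primes `p ≤ n ^ (1 / r)`, up to `ε`, for every `l ≤ l₀` and all distances (and for
every `l` if the distance is at most `x₀ / U`). With `T = 0` this is the asymptotic number of the good
integers. In particular the square roots of consecutive good integers differ by less than `n ^ (θ - 1 / 2)`.
-/

namespace Pool.Agent.Results.MP_82fd4a_nt.AlmostPrimeGapLaws

open Finset Filter
open Pool.Agent.V11237.LP.Short

lemma U_pos (n r : ℕ) : 0 < U n r := by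
  unfold U
  refine Finset.prod_pos fun p hp => ?_
  have hp1 : p.Prime := (mem_filter.1 hp).2
  have h2 : (2 : ℝ) ≤ p := by exact_mod_cast hp1.two_le
  have h3 : 1 / (p : ℝ) ≤ 1 / 2 := one_div_le_one_div_of_le (by norm_num) h2
  linarith

/-- **The number of the almost primes `m` with `√n < √m ≤ √n + 1` and the laws of their gaps**, in all
subintervals of length at least `n ^ θ`; consecutive good integers have square roots which differ by at
most `n ^ (θ - 1 / 2)`. -/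
theorem result (θ : ℝ) (hθ : 0 < θ) (l₀ : ℕ) (x₀ ε : ℝ) (hε : 0 < ε) :
    ∃ r₀ : ℕ, ∀ r : ℕ, r₀ ≤ r → ∃ n₀ : ℕ, ∀ n : ℕ, n₀ ≤ n →
      (∀ m : ℕ, m ≠ 0 → √(m : ℝ) ≤ √n + 1 → Good n r m → m.primeFactorsList.length ≤ 2 * r) ∧
      (∃ m : ℕ, Good n r m ∧ n < m ∧ √(m : ℝ) ≤ √n + (n : ℝ) ^ (θ - 1 / 2)) ∧
      ∀ u Y : ℕ, n ≤ u ∧ √((u : ℝ) + Y) ≤ √n + 1 → (n : ℝ) ^ θ ≤ Y → ∀ l T : ℕ,
        (l ≤ l₀ ∨ T * U n r ≤ x₀) →
        |(G n r l T u Y : ℝ) - Y * U n r *
          ∑ j ∈ range l, Real.exp (-(T * U n r)) * (T * U n r) ^ j / j.factorial| ≤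
        ε * (Y * U n r) := by
  obtain ⟨r0, _, h0⟩ := gaps θ hθ l₀ x₀ ε hε
  obtain ⟨r1, _, h1⟩ := gaps (θ / 2) (by positivity) 1 0 (1 / 2) (by norm_num)
  refine ⟨max (max r0 r1) 1, ?_⟩
  intro r hr
  obtain ⟨N0, hN0⟩ := h0 r (((le_max_left _ _).trans (le_max_left _ _)).trans hr)
  obtain ⟨N1, hN1⟩ := h1 r (((le_max_right _ _).trans (le_max_left _ _)).trans hr)
  obtain ⟨N2, hN2⟩ := (tendsto_atTop.1 ((tendsto_rpow_atTop (show (0:ℝ) < θ / 2 by positivity)).comp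
    tendsto_natCast_atTop_atTop) 4).exists_forall_of_atTop
  refine ⟨max (max N0 N1) (max N2 8), ?_⟩
  intro n hn
  have hb : 8 ≤ n := ((le_max_right _ _).trans (le_max_right _ _)).trans hn
  have hn8 : (8 : ℝ) ≤ n := by exact_mod_cast hb
  have hn0 : (0 : ℝ) < n := by linarith
  refine ⟨?_, ?_, fun u Y _ hY l T hT =>
    hN0 n (((le_max_left _ _).trans (le_max_left _ _)).trans hn) u Y hY l T hT⟩
  · intro m hm0 hm hg
    refine few ((le_max_right _ _).trans hr) (by omega) hm0 ?_ hg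
    have h1 : √(n : ℝ) ^ 2 = n := Real.sq_sqrt hn0.le
    have h2 : √(m : ℝ) ^ 2 = m := Real.sq_sqrt (Nat.cast_nonneg m)
    have h3 : (1 : ℝ) ≤ √n := by
      rw [Real.one_le_sqrt]
      linarith
    have h4 : (m : ℝ) ≤ (√n + 1) ^ 2 := by
      rw [← h2]
      exact pow_le_pow_left₀ (Real.sqrt_nonneg _) hm 2
    have h5 : (m : ℝ) ≤ (n : ℝ) ^ 2 := by nlinarith
    exact_mod_cast h5
  · have hbig : (4 : ℝ) ≤ (n : ℝ) ^ (θ / 2) :=
      hN2 n (((le_max_left _ _).trans (le_max_right _ _)).trans hn)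
    have hY : (n : ℝ) ^ (θ / 2) ≤ (⌈(n : ℝ) ^ (θ / 2)⌉₊ : ℝ) := Nat.le_ceil _
    have hYu : (⌈(n : ℝ) ^ (θ / 2)⌉₊ : ℝ) < (n : ℝ) ^ (θ / 2) + 1 :=
      Nat.ceil_lt_add_one (by positivity)
    set Y := ⌈(n : ℝ) ^ (θ / 2)⌉₊ with hYdef
    have key := hN1 n (((le_max_right _ _).trans (le_max_left _ _)).trans hn) n Y hY 1 0 (Or.inl le_rfl)
    have hY0 : (0 : ℝ) < Y := by linarith
    have hU := U_pos n r
    have hpos : 0 < (G n r 1 0 n Y : ℝ) := by
      have h6 : (∑ j ∈ range 1, Real.exp (-(((0 : ℕ) : ℝ) * U n r)) * (((0 : ℕ) : ℝ) * U n r) ^ j /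
          (j.factorial : ℝ)) = 1 := by simp
      rw [h6, mul_one] at key
      have h7 := (abs_le.1 key).1
      nlinarith [mul_pos hY0 hU]
    have hpos' : 0 < G n r 1 0 n Y := by exact_mod_cast hpos
    classical
    unfold G at hpos'
    obtain ⟨m, hm⟩ := Finset.card_pos.1 hpos'
    rw [mem_filter, mem_Ioc] at hm
    refine ⟨m, hm.2.1, hm.1.1, ?_⟩
    have hmle : (m : ℝ) ≤ n + Y := by exact_mod_cast hm.1.2
    have hs0 : 0 < √(n : ℝ) := Real.sqrt_pos.2 hn0
    have hsq : √(n : ℝ) ^ 2 = n := Real.sq_sqrt hn0.le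
    have hsr : √(n : ℝ) = (n : ℝ) ^ ((1 : ℝ) / 2) := Real.sqrt_eq_rpow _
    have hδ : (n : ℝ) ^ (θ - 1 / 2) * √n = (n : ℝ) ^ θ := by
      rw [hsr, ← Real.rpow_add hn0]
      congr 1
      ring
    have hθ2 : (n : ℝ) ^ θ = (n : ℝ) ^ (θ / 2) * (n : ℝ) ^ (θ / 2) := by
      rw [← Real.rpow_add hn0]
      congr 1
      ring
    have hδ0 : 0 < (n : ℝ) ^ (θ - 1 / 2) := Real.rpow_pos_of_pos hn0 _
    refine Real.sqrt_le_iff.2 ⟨by positivity, ?_⟩
    have h8 : (Y : ℝ) ≤ 2 * ((n : ℝ) ^ (θ - 1 / 2) * √n) := by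
      rw [hδ, hθ2]
      nlinarith
    nlinarith [sq_nonneg ((n : ℝ) ^ (θ - 1 / 2))]

end Pool.Agent.Results.MP_82fd4a_nt.AlmostPrimeGapLaws
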