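import Mathlib
import Pool.Agent.H274.Gaps

/-!
# Andrica's inequality for all consecutive primes in windows

Let `1 ≤ u_0, u_1, …` be reals with `∑ u_m^{-t} < ∞` for all `t > τ` (`τ = 0` for geometric sequences, `τ = 1/d` for
`u_m = m^d`), and `θ < 1`. Let `p < q` denote consecutive primes.

(0) Unconditionally: for all `a > 0` outside of a set of Hausdorff dimension at most `(1/2 + τ) / (1 - θ)`, and for almost all
`a > 0` if `θ + τ < 1/2`: for all large `m`, ALL `p` with `|p - a u_m| ≤ u_m^θ` satisfy `q - p < √p`.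

(1) From Heath-Brown's theorem: for all `a > 0` outside of a set of Hausdorff dimension at most `(1/10 + τ) / (1 - θ)`, and for
almost all `a > 0` if `θ + τ < 9/10`: for all large `m`, ALL `p` with `|p - a u_m| ≤ u_m^θ` satisfy `q - p < √p`, in particular `√q - √p < 1/2`,
Andrica's inequality with `1/2` in place of `1`.

(2) For all `a > 0` outside of a set of dimension at most `(3/5 + τ) / (1 - θ)`, and for almost all `a > 0` if `θ + τ < 2/5`,
this holds for all large `m` and ALL pairs `p < q` with `p ≤ x < q` for some integer `x` with `|x - a u_m| ≤ u_m^θ`: so also the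
windows which might be in a gap are covered.

What is used for (1), (2) is the theorem of Heath-Brown (The differences between consecutive primes V, IMRN 2021), `HeathBrown`: the sum of
the gaps `p_{k+1} - p_k ≥ √p_k` with `p_k ≤ x` is `O(x^{3/5 + ε})`; we state it, by partial summation, as the convergence of the
series of `(p_{k+1} - p_k) p_k^{-s}` over these gaps for `s > 3/5`.

The proof: up to `X` there are `O(X^{1/10 + ε})` gaps with `q - p ≥ √p`, which contain `O(X^{3/5 + ε})` integers, and the `a` for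
which these are in infinitely many windows are covered by `Pool.Agent.Y854.GM.windows`.
-/

set_option autoImplicit false

namespace Pool.Agent.Results.MP_82fd4a_nt.AndricaInWindows

open Filter MeasureTheory

/-- the primes `p 0 = 2, p 1 = 3, …` -/
noncomputable def p (k : ℕ) : ℕ := Nat.nth Nat.Prime k

/-- Heath-Brown's theorem: the series of `(p_{k+1} - p_k) p_k^{-s}` over the gaps with `p_{k+1} - p_k ≥ √p_k` converges for
`s > 3/5` -/
def HeathBrown : Prop := ∀ s : ℝ, 3 / 5 < s →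
  Summable (Set.indicator {k : ℕ | Real.sqrt (p k) ≤ ((p (k + 1) - p k : ℕ) : ℝ)}
    fun k => ((p (k + 1) - p k : ℕ) : ℝ) * (p k : ℝ) ^ (-s))

/-- the large gaps -/
def B : Set ℕ := {k : ℕ | Real.sqrt (p k) ≤ ((p (k + 1) - p k : ℕ) : ℝ)}

/-- `√p_{k+1} - √p_k < 1/2` and `p_{k+1} - p_k < √p_k` -/
def Small (k : ℕ) : Prop :=
  Real.sqrt (p (k + 1)) - Real.sqrt (p k) < 1 / 2 ∧ ((p (k + 1) - p k : ℕ) : ℝ) < Real.sqrt (p k)

theorem small_of {k : ℕ} (hk : k ∉ B) : Small k := by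
  have h1 : ((p (k + 1) - p k : ℕ) : ℝ) < Real.sqrt (p k) := not_le.1 hk
  refine ⟨?_, h1⟩
  have hlt : p k < p (k + 1) := Pool.Agent.H274.Gaps.p_lt k
  have hp0 : (0 : ℝ) < p k := by exact_mod_cast (Pool.Agent.H274.Gaps.p_prime k).pos
  rw [Nat.cast_sub hlt.le] at h1
  have h2 : Real.sqrt (p (k + 1)) < Real.sqrt (p k) + 1 / 2 := by
    rw [Real.sqrt_lt' (by positivity)]
    have h3 := Real.sq_sqrt hp0.le
    nlinarith
  linarith

theorem count {σ : ℝ} (hσ : 1 / 2 ≤ σ)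
    (hser : ∀ s : ℝ, σ < s → Summable (B.indicator fun k => ((p (k + 1) - p k : ℕ) : ℝ) * (p k : ℝ) ^ (-s)))
    (ε : ℝ) (hε : 0 < ε) : ∃ C : ℝ, ∀ X : ℝ, 1 ≤ X →
    {k | k ∈ B ∧ (p k : ℝ) ≤ X}.Finite ∧ ({k | k ∈ B ∧ (p k : ℝ) ≤ X}.ncard : ℝ) ≤ C * X ^ (σ - 1 / 2 + ε) := by
  classical
  have hs := hser (σ + ε) (by linarith)
  set g : ℕ → ℝ := B.indicator fun k => ((p (k + 1) - p k : ℕ) : ℝ) * (p k : ℝ) ^ (-(σ + ε)) with hg
  have hg0 : ∀ k, 0 ≤ g k := fun k => Set.indicator_nonneg (fun k _ => by positivity) k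
  refine ⟨∑' k, g k, fun X hX => ?_⟩
  have hX0 : 0 < X := by linarith
  have hfin : {k | k ∈ B ∧ (p k : ℝ) ≤ X}.Finite := by
    refine (Set.finite_Iic ⌊X⌋₊).subset fun k hk => ?_
    have h1 : k ≤ p k := (Nat.nth_strictMono Nat.infinite_setOfPred_prime).le_apply
    exact Nat.le_floor ((by exact_mod_cast h1 : (k : ℝ) ≤ p k).trans hk.2)
  refine ⟨hfin, ?_⟩
  rw [Set.ncard_eq_toFinset_card _ hfin]
  have h1 : ∀ k ∈ hfin.toFinset, X ^ (-(σ - 1 / 2 + ε)) ≤ g k := by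
    intro k hk
    obtain ⟨hkB, hkX⟩ := hfin.mem_toFinset.1 hk
    have hp0 : (0 : ℝ) < p k := by exact_mod_cast (Pool.Agent.H274.Gaps.p_prime k).pos
    rw [hg, Set.indicator_of_mem hkB]
    have h2 : Real.sqrt (p k) ≤ ((p (k + 1) - p k : ℕ) : ℝ) := hkB
    calc X ^ (-(σ - 1 / 2 + ε)) ≤ (p k : ℝ) ^ (-(σ - 1 / 2 + ε)) := Real.rpow_le_rpow_of_nonpos hp0 hkX (by linarith)
      _ = Real.sqrt (p k) * (p k : ℝ) ^ (-(σ + ε)) := by
          rw [Real.sqrt_eq_rpow, ← Real.rpow_add hp0]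
          congr 1
          ring
      _ ≤ _ := mul_le_mul_of_nonneg_right h2 (by positivity)
  have h2 := Finset.sum_le_sum h1
  rw [Finset.sum_const, nsmul_eq_mul] at h2
  have h3 : ∑ k ∈ hfin.toFinset, g k ≤ ∑' k, g k := hs.sum_le_tsum _ fun k _ => hg0 k
  have h4 : X ^ (-(σ - 1 / 2 + ε)) * X ^ (σ - 1 / 2 + ε) = 1 := by
    rw [← Real.rpow_add hX0, neg_add_cancel, Real.rpow_zero]
  calc (hfin.toFinset.card : ℝ) = (hfin.toFinset.card : ℝ) * X ^ (-(σ - 1 / 2 + ε)) * X ^ (σ - 1 / 2 + ε) := by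
        rw [mul_assoc, h4, mul_one]
    _ ≤ _ := mul_le_mul_of_nonneg_right (h2.trans h3) (by positivity)

/-- the trivial series over all gaps -/
theorem trivial_series (s : ℝ) (hs : 1 < s) : Summable fun k : ℕ => ((p (k + 1) - p k : ℕ) : ℝ) * (p k : ℝ) ^ (-s) := by
  have hlt : ∀ k, p k < p (k + 1) := Pool.Agent.H274.Gaps.p_lt
  have hp0 : ∀ k, (0 : ℝ) < p k := fun k => by exact_mod_cast (Pool.Agent.H274.Gaps.p_prime k).pos
  have hz : Summable fun n : ℕ => (n : ℝ) ^ (-s) := Real.summable_nat_rpow.2 (by linarith)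
  have h1 : ∀ n : ℕ, ∑ k ∈ Finset.range n, ((p (k + 1) - p k : ℕ) : ℝ) * (p (k + 1) : ℝ) ^ (-s) ≤
      ∑ x ∈ Finset.Ico (p 0 + 1) (p n + 1), (x : ℝ) ^ (-s) := by
    intro n
    induction n with
    | zero => simp
    | succ n ih =>
      have hmono : p 0 ≤ p n := (Nat.nth_strictMono Nat.infinite_setOfPred_prime).monotone (Nat.zero_le n)
      rw [Finset.sum_range_succ, ← Finset.sum_Ico_consecutive (fun x : ℕ => (x : ℝ) ^ (-s))
        (show p 0 + 1 ≤ p n + 1 by omega) (show p n + 1 ≤ p (n + 1) + 1 by have := hlt n; omega)]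
      refine add_le_add ih ?_
      calc ((p (n + 1) - p n : ℕ) : ℝ) * (p (n + 1) : ℝ) ^ (-s)
          = ∑ x ∈ Finset.Ico (p n + 1) (p (n + 1) + 1), (p (n + 1) : ℝ) ^ (-s) := by
            rw [Finset.sum_const, Nat.card_Ico, nsmul_eq_mul]
            congr 2
            omega
        _ ≤ _ := by
            refine Finset.sum_le_sum fun x hx => ?_
            rw [Finset.mem_Ico] at hx
            have hx0 : (0 : ℝ) < x := by exact_mod_cast (by omega : 0 < x)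
            exact Real.rpow_le_rpow_of_nonpos hx0 (by exact_mod_cast (by omega : x ≤ p (n + 1))) (by linarith)
  have h2 : Summable fun k : ℕ => ((p (k + 1) - p k : ℕ) : ℝ) * (p (k + 1) : ℝ) ^ (-s) :=
    summable_of_sum_range_le (c := ∑' n : ℕ, (n : ℝ) ^ (-s)) (fun k => by positivity) fun n =>
      (h1 n).trans (hz.sum_le_tsum _ fun x _ => by positivity)
  refine Summable.of_nonneg_of_le (fun k => by positivity) (fun k => ?_) (h2.mul_left ((2 : ℝ) ^ s))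
  have h3 : p (k + 1) ≤ 2 * p k := by
    obtain ⟨q, hq1, hq2, hq3⟩ := Nat.exists_prime_lt_and_le_two_mul (p k) (Pool.Agent.H274.Gaps.p_prime k).pos.ne'
    by_contra hcon
    have h4 := Nat.le_nth_of_lt_nth_succ (p := Nat.Prime) (k := k) (a := q) (by
      have : q < p (k + 1) := by omega
      exact this) hq1
    have h5 : q ≤ p k := h4
    omega
  have h4 : (p (k + 1) : ℝ) ≤ 2 * p k := by exact_mod_cast h3
  have h5 : (2 * (p k : ℝ)) ^ (-s) ≤ (p (k + 1) : ℝ) ^ (-s) := Real.rpow_le_rpow_of_nonpos (hp0 _) h4 (by linarith)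
  rw [Real.mul_rpow (by norm_num) (hp0 k).le] at h5
  have h6 : (p k : ℝ) ^ (-s) ≤ (2 : ℝ) ^ s * (p (k + 1) : ℝ) ^ (-s) := by
    have h7 := mul_le_mul_of_nonneg_left h5 (show (0 : ℝ) ≤ (2 : ℝ) ^ s by positivity)
    rw [← mul_assoc, ← Real.rpow_add (by norm_num), add_neg_cancel, Real.rpow_zero, one_mul] at h7
    exact h7
  calc ((p (k + 1) - p k : ℕ) : ℝ) * (p k : ℝ) ^ (-s) ≤ ((p (k + 1) - p k : ℕ) : ℝ) * ((2 : ℝ) ^ s * (p (k + 1) : ℝ) ^ (-s)) :=
        mul_le_mul_of_nonneg_left h6 (Nat.cast_nonneg _)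
    _ = _ := by ring

/-- the integers in the large gaps -/
def E : Set ℕ := {x | 2 ≤ x ∧ Pool.Agent.H274.Gaps.idx x ∈ B}

theorem count_points (hHB : HeathBrown) (ε : ℝ) (hε : 0 < ε) : ∃ C : ℝ, ∀ X : ℝ, 1 ≤ X →
    {x | x ∈ E ∧ (x : ℝ) ≤ X}.Finite ∧ ({x | x ∈ E ∧ (x : ℝ) ≤ X}.ncard : ℝ) ≤ C * X ^ (3 / 5 + ε) := by
  classical
  have hs := hHB (3 / 5 + ε) (by linarith)
  set g : ℕ → ℝ := B.indicator fun k => ((p (k + 1) - p k : ℕ) : ℝ) * (p k : ℝ) ^ (-(3 / 5 + ε)) with hg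
  have hg0 : ∀ k, 0 ≤ g k := fun k => Set.indicator_nonneg (fun k _ => by positivity) k
  refine Pool.Agent.H274.Gaps.count_exc (by linarith) (fun x hx => by have := hx.1; omega) ?_
  refine summable_of_sum_le (c := ∑' k, g k) (fun x => by positivity) fun T => ?_
  set T' : Finset ℕ := T.map (Function.Embedding.subtype _) with hT'
  have hTE : ∀ x ∈ T', x ∈ E := by
    intro n hn
    obtain ⟨x, _, rfl⟩ := Finset.mem_map.1 hn
    exact x.2
  have h3 : ∑ x ∈ T, ((x : ℕ) : ℝ) ^ (-(3 / 5 + ε)) = ∑ x ∈ T', (x : ℝ) ^ (-(3 / 5 + ε)) := by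
    rw [hT', Finset.sum_map]
    rfl
  rw [h3]
  calc ∑ x ∈ T', (x : ℝ) ^ (-(3 / 5 + ε))
      ≤ ∑ x ∈ T', (p (Pool.Agent.H274.Gaps.idx x) : ℝ) ^ (-(3 / 5 + ε)) := by
        refine Finset.sum_le_sum fun x hx => ?_
        have h4 := Pool.Agent.H274.Gaps.p_idx_le (hTE x hx).1
        have h6 : (0 : ℝ) < p (Pool.Agent.H274.Gaps.idx x) := by exact_mod_cast (Pool.Agent.H274.Gaps.p_prime _).pos
        exact Real.rpow_le_rpow_of_nonpos h6 (by exact_mod_cast h4) (by linarith)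
    _ = ∑ k ∈ T'.image Pool.Agent.H274.Gaps.idx, ∑ x ∈ T' with Pool.Agent.H274.Gaps.idx x = k,
          (p (Pool.Agent.H274.Gaps.idx x) : ℝ) ^ (-(3 / 5 + ε)) :=
        (Finset.sum_fiberwise_of_maps_to (fun n hn => Finset.mem_image_of_mem _ hn) _).symm
    _ ≤ ∑ k ∈ T'.image Pool.Agent.H274.Gaps.idx, g k := by
        refine Finset.sum_le_sum fun k hk => ?_
        obtain ⟨x₀, hx₀, rfl⟩ := Finset.mem_image.1 hk
        rw [hg, Set.indicator_of_mem (hTE x₀ hx₀).2]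
        have h4 : ∑ x ∈ T' with Pool.Agent.H274.Gaps.idx x = Pool.Agent.H274.Gaps.idx x₀,
            (p (Pool.Agent.H274.Gaps.idx x) : ℝ) ^ (-(3 / 5 + ε)) =
            ((T'.filter fun x => Pool.Agent.H274.Gaps.idx x = Pool.Agent.H274.Gaps.idx x₀).card : ℝ) *
              (p (Pool.Agent.H274.Gaps.idx x₀) : ℝ) ^ (-(3 / 5 + ε)) := by
          rw [← nsmul_eq_mul, ← Finset.sum_const]
          refine Finset.sum_congr rfl fun n hn => ?_
          rw [(Finset.mem_filter.1 hn).2]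
        rw [h4]
        refine mul_le_mul_of_nonneg_right ?_ (by positivity)
        have h5 := Pool.Agent.H274.Gaps.fiber (f := fun x => x) (w := fun _ => 1) (E := E) (fun x hx => hx.1)
          (fun x _ r _ h => by omega) (fun x _ x' _ h => h)
          (T'.filter fun x => Pool.Agent.H274.Gaps.idx x = Pool.Agent.H274.Gaps.idx x₀)
          (fun x hx => hTE x (Finset.mem_filter.1 hx).1) (Pool.Agent.H274.Gaps.idx x₀) (fun x hx => (Finset.mem_filter.1 hx).2)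
        rw [Finset.sum_const, smul_eq_mul, mul_one] at h5
        exact_mod_cast h5
    _ ≤ _ := hs.sum_le_tsum _ fun k _ => hg0 k

theorem null_of {Z : Set ℝ} {D : ℝ} (h : dimH Z ≤ ENNReal.ofReal D) (hD : D < 1) : volume Z = 0 := by
  rw [← hausdorffMeasure_real]
  refine hausdorffMeasure_of_dimH_lt (d := 1) (h.trans_lt ?_)
  simpa using (ENNReal.ofReal_lt_one).2 hD

/-- all the pairs with `p_k` in the windows are good, for all large `m` -/
def First (u : ℕ → ℝ) (θ a : ℝ) : Prop := ∃ m₀ : ℕ, ∀ m : ℕ, m₀ ≤ m → ∀ k : ℕ, |(p k : ℝ) - a * u m| ≤ u m ^ θ → Small k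

/-- all the pairs `p_k ≤ x < p_{k+1}` with an integer `x` in the windows are good, for all large `m` -/
def Second (u : ℕ → ℝ) (θ a : ℝ) : Prop := ∃ m₀ : ℕ, ∀ m : ℕ, m₀ ≤ m → ∀ x k : ℕ, |(x : ℝ) - a * u m| ≤ u m ^ θ →
  p k ≤ x → x < p (k + 1) → Small k

theorem first_of {σ : ℝ} (hσ : 1 / 2 ≤ σ)
    (hser : ∀ s : ℝ, σ < s → Summable (B.indicator fun k => ((p (k + 1) - p k : ℕ) : ℝ) * (p k : ℝ) ^ (-s)))
    {u : ℕ → ℝ} {τ θ : ℝ} (hu : ∀ m, 1 ≤ u m) (hτ : 0 ≤ τ)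
    (hgrow : ∀ t : ℝ, τ < t → Summable fun m : ℕ => u m ^ (-t)) (hθ : θ < 1) :
    ∃ Z : Set ℝ, dimH Z ≤ ENNReal.ofReal ((σ - 1 / 2 + τ) / (1 - θ)) ∧ ∀ a : ℝ, 0 < a → a ∉ Z → First u θ a := by
  obtain ⟨Z, hZ1, hZ2⟩ := Pool.Agent.Y854.GM.windows B (fun k : ℕ => (p k : ℝ)) hu hτ hgrow
    (show 0 ≤ σ - 1 / 2 by linarith) hθ (fun ε hε => count hσ hser ε hε)
  refine ⟨Z, hZ1, fun a ha haZ => ?_⟩
  obtain ⟨m₀, hm₀⟩ := hZ2 a ha haZ
  exact ⟨m₀, fun m hm k hk => small_of fun hkB => absurd hk (not_le.2 (hm₀ m hm k hkB))⟩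

theorem ae_of {Z : Set ℝ} {D : ℝ} (hZ1 : dimH Z ≤ ENNReal.ofReal D) (hD : D < 1) {Q : ℝ → Prop}
    (hZ2 : ∀ a : ℝ, 0 < a → a ∉ Z → Q a) : ∀ᵐ a : ℝ, 0 < a → Q a := by
  filter_upwards [compl_mem_ae_iff.2 (null_of hZ1 hD)] with a ha ha0
  exact hZ2 a ha0 ha

/-- **Theorem.** Let `1 ≤ u_m`, `∑_m u_m^{-t} < ∞` for all `t > τ`, `θ < 1`: Andrica's inequality in the windows around
`a u_m`, for all `a` outside of sets of small dimension and for almost all `a`: unconditionally, and with better exponents from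
Heath-Brown's theorem. -/
theorem result (u : ℕ → ℝ) (τ θ : ℝ) (hu : ∀ m, 1 ≤ u m) (hτ : 0 ≤ τ)
    (hgrow : ∀ t : ℝ, τ < t → Summable fun m : ℕ => u m ^ (-t)) (hθ : θ < 1) :
    ((∃ Z : Set ℝ, dimH Z ≤ ENNReal.ofReal ((1 / 2 + τ) / (1 - θ)) ∧ ∀ a : ℝ, 0 < a → a ∉ Z → First u θ a) ∧
      (θ + τ < 1 / 2 → ∀ᵐ a : ℝ, 0 < a → First u θ a)) ∧
    (HeathBrown →
      ((∃ Z : Set ℝ, dimH Z ≤ ENNReal.ofReal ((1 / 10 + τ) / (1 - θ)) ∧ ∀ a : ℝ, 0 < a → a ∉ Z → First u θ a) ∧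
        (θ + τ < 9 / 10 → ∀ᵐ a : ℝ, 0 < a → First u θ a)) ∧
      ((∃ Z : Set ℝ, dimH Z ≤ ENNReal.ofReal ((3 / 5 + τ) / (1 - θ)) ∧ ∀ a : ℝ, 0 < a → a ∉ Z → Second u θ a) ∧
        (θ + τ < 2 / 5 → ∀ᵐ a : ℝ, 0 < a → Second u θ a))) := by
  constructor
  · obtain ⟨Z, hZ1, hZ2⟩ := first_of (σ := 1) (by norm_num) (fun s hs => (trivial_series s hs).indicator B) hu hτ hgrow hθ
    have e : (1 : ℝ) - 1 / 2 = 1 / 2 := by norm_num
    rw [e] at hZ1
    exact ⟨⟨Z, hZ1, hZ2⟩, fun hθτ => ae_of hZ1 (by rw [div_lt_one (by linarith)]; linarith) hZ2⟩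
  · intro hHB
    constructor
    · obtain ⟨Z, hZ1, hZ2⟩ := first_of (σ := 3 / 5) (by norm_num) (fun s hs => hHB s hs) hu hτ hgrow hθ
      have e : (3 : ℝ) / 5 - 1 / 2 = 1 / 10 := by norm_num
      rw [e] at hZ1
      exact ⟨⟨Z, hZ1, hZ2⟩, fun hθτ => ae_of hZ1 (by rw [div_lt_one (by linarith)]; linarith) hZ2⟩
    · obtain ⟨Z, hZ1, hZ2⟩ := Pool.Agent.Y854.GM.windows E (fun x : ℕ => (x : ℝ)) hu hτ hgrow
        (show (0 : ℝ) ≤ 3 / 5 by norm_num) hθ (fun ε hε => count_points hHB ε hε)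
      have hZ3 : ∀ a : ℝ, 0 < a → a ∉ Z → Second u θ a := by
        intro a ha haZ
        obtain ⟨m₀, hm₀⟩ := hZ2 a ha haZ
        refine ⟨m₀, fun m hm x k hx h3 h4 => small_of fun hkB => ?_⟩
        have hx2 : 2 ≤ x := (Pool.Agent.H274.Gaps.p_prime k).two_le.trans h3
        have h5 := Pool.Agent.H274.Gaps.p_idx_le hx2
        have h6 := Pool.Agent.H274.Gaps.lt_p_idx hx2
        have hmono : StrictMono (Nat.nth Nat.Prime) := Nat.nth_strictMono Nat.infinite_setOfPred_prime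
        have h7 : Pool.Agent.H274.Gaps.idx x = k := by
          have h8 : Pool.Agent.H274.Gaps.idx x < k + 1 := hmono.lt_iff_lt.1 (h5.trans_lt h4)
          have h9 : k < Pool.Agent.H274.Gaps.idx x + 1 := hmono.lt_iff_lt.1 (h3.trans_lt h6)
          omega
        exact absurd hx (not_le.2 (hm₀ m hm x ⟨hx2, by rw [h7]; exact hkB⟩))
      exact ⟨⟨Z, hZ1, hZ3⟩, fun hθτ => ae_of hZ1 (by rw [div_lt_one (by linarith)]; linarith) hZ3⟩

end Pool.Agent.Results.MP_82fd4a_nt.AndricaInWindows
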