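import Pool.Agent.V11150.GapT

/-!
# Andrica's inequality in many progressions at the same time

`p r q n` is the `n`-th prime congruent to `r` modulo `q`. Let `0 < ε ≤ 1/6`. For all large `x` and EVERY finite set
`Q` of moduli whose sum is at most `x ^ (1/2 - 3 ε)`, all primes `P ≤ x` with at most `6 x ^ (1 - ε)` exceptions
have the following property simultaneously for all `q ∈ Q` prime to `P` and all `j ≤ x ^ ε`: if `P = p r q n`, then
`√(p r q (n + j)) - √(p r q n) ≤ x ^ (-ε / 2)`; and the range of the moduli cannot be extended beyond `2 √x + 1`: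
the difference is at least `1` at EVERY prime `P = p r q n` with `q ≥ 2 √P + 1`.

Examples for `Q`: all `q ≤ x ^ (1/4 - 3 ε / 2)`, all powers of `2` up to `x ^ (1/2 - 3 ε) / 2`, any single modulus
up to `x ^ (1/2 - 3 ε)`.
-/

set_option autoImplicit false

namespace Pool.Agent.Results.MP_82fd4a_nt.ManyProgressionsAtOnce

open Finset

/-- the `n`-th prime (`n ≥ 1`) congruent to `r` modulo `q` -/
noncomputable def p (r q n : ℕ) : ℕ := Nat.nth (fun m => m.Prime ∧ m % q = r) (n - 1)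

open Classical in
/-- the primes `P ≤ x` such that for some `q ∈ Q` prime to `P`, some `j ≤ x ^ ε` and `P = p r q n` the difference
`√(p r q (n + j)) - √(p r q n)` is larger than `x ^ (-ε / 2)` -/
noncomputable def exceptions (ε : ℝ) (Q : Finset ℕ) (x : ℕ) : Finset ℕ :=
  (Icc 1 x).filter fun P => P.Prime ∧ ∃ q ∈ Q, ∃ r n j : ℕ, r < q ∧ r.Coprime q ∧ 1 ≤ n ∧ p r q n = P ∧
    (j : ℝ) ≤ (x : ℝ) ^ ε ∧ (x : ℝ) ^ (-(ε / 2)) < √(p r q (n + j) : ℝ) - √(p r q n : ℝ)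

theorem result :
    (∀ ε : ℝ, 0 < ε → ε ≤ 1 / 6 → ∃ X₀ : ℕ, ∀ x : ℕ, X₀ ≤ x →
      ∀ Q : Finset ℕ, (∀ q ∈ Q, 0 < q) → (∑ q ∈ Q, (q : ℝ)) ≤ (x : ℝ) ^ (1 / 2 - 3 * ε) →
      ((exceptions ε Q x).card : ℝ) ≤ 6 * (x : ℝ) ^ (1 - ε)) ∧
    (∀ r q n : ℕ, r < q → r.Coprime q → 1 ≤ n → 2 * √(p r q n : ℝ) + 1 ≤ q →
      1 ≤ √(p r q (n + 1) : ℝ) - √(p r q n : ℝ)) := by
  refine ⟨fun ε hε hε1 => Pool.Agent.V11150.GapT.exc_card ε hε hε1, ?_⟩
  intro r q n hr hc hn hq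
  have h1 : p r q n < p r q (n + 1) := Pool.Agent.V11150.GapQ.p_lt r q n hr hc hn
  have h2 : p r q n % q = r := (Pool.Agent.V11150.GapQ.p_mem r q n hr hc).2
  have h3 : p r q (n + 1) % q = r := (Pool.Agent.V11150.GapQ.p_mem r q (n + 1) hr hc).2
  have h4 : p r q n + q ≤ p r q (n + 1) := by
    have h5 : q ∣ p r q (n + 1) - p r q n :=
      (Nat.modEq_iff_dvd' h1.le).1 (show p r q n % q = p r q (n + 1) % q by rw [h2, h3])
    have h6 := Nat.le_of_dvd (by omega) h5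
    omega
  have h5 : (p r q n : ℝ) + q ≤ p r q (n + 1) := by exact_mod_cast h4
  have h6 := Real.sqrt_nonneg (p r q n : ℝ)
  have h7 := Real.mul_self_sqrt (Nat.cast_nonneg (α := ℝ) (p r q n))
  have h8 : √(p r q n : ℝ) + 1 ≤ √(p r q (n + 1) : ℝ) := by
    apply Real.le_sqrt_of_sq_le
    nlinarith
  linarith

end Pool.Agent.Results.MP_82fd4a_nt.ManyProgressionsAtOnce
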