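import Pool.Agent.Results.MP_82fd4a_nt.ManyProgressionsAtOnce
import Pool.Agent.V11326.WD
import Pool.Agent.V11001.KM.Near

/-!
# Andrica's inequality in many progressions at once, at ALL primes near the powers of almost every real number

Let `0 < ε ≤ 1/6`, `ν n / log n → ∞`, for example `ν n = n`, and `θ < 1`. For each `k` let `Q_k` be a finite set of moduli
with sum at most `2 ^ ((1/2 - 3ε) k)`, for example all `q ≤ 2 ^ ((1/4 - 3ε/2) k)`. For all real `z > 1` outside a set of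
Hausdorff dimension at most `(1 - ε) / (1 - θ)` ALL large primes `P` with `|P - b z ^ (ν n)| ≤ z ^ (θ ν n)` for some `n`
satisfy for all `q` in `Q_k`, `2 ^ k ≤ P < 2 ^ (k + 1)`, which are prime to `P`, and all `i ≤ P ^ ε`: the difference between
the square roots of the `i`-th prime after `P` in its residue class modulo `q` and of `P` is at most `P ^ (-ε/2)`.
-/

set_option autoImplicit false

open Finset

namespace Pool.Agent.Results.MP_82fd4a_nt.PrimesNearPowers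

open Pool.Agent.V11001.KM
open Pool.Agent.Results.MP_82fd4a_nt.ManyProgressionsAtOnce (p exceptions)

/-- for all `q` in the set `Q` prime to `P` and all `i ≤ P ^ ε`: `√P' - √P ≤ P ^ (-ε/2)` for the `i`-th prime `P'` after `P`
in its class modulo `q` (`P = p r q n`, `P' = p r q (n + i)`) -/
def Good (ε : ℝ) (Q : Finset ℕ) (P : ℕ) : Prop :=
  ∀ q ∈ Q, ∀ r n i : ℕ, r < q → r.Coprime q → 1 ≤ n → p r q n = P → (i : ℝ) ≤ (P : ℝ) ^ ε →
    √(p r q (n + i) : ℝ) - √(p r q n : ℝ) ≤ (P : ℝ) ^ (-(ε / 2))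

/-- the exceptional primes -/
def Bad (ε : ℝ) (Q : ℕ → Finset ℕ) : Set ℕ := {P : ℕ | P.Prime ∧ ¬ Good ε (Q (Nat.log 2 P)) P}

/-- the exceptional primes of one dyadic scale -/
theorem scale {ε : ℝ} (hε : 0 < ε) {X₀ : ℕ}
    (hX₀ : ∀ x : ℕ, X₀ ≤ x → ∀ Q : Finset ℕ, (∀ q ∈ Q, 0 < q) → (∑ q ∈ Q, (q : ℝ)) ≤ (x : ℝ) ^ (1 / 2 - 3 * ε) →
      ((exceptions ε Q x).card : ℝ) ≤ 6 * (x : ℝ) ^ (1 - ε))
    (hε1 : ε ≤ 1 / 6) (Q : ℕ → Finset ℕ) (hQ0 : ∀ k, ∀ q ∈ Q k, 0 < q)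
    (hQ : ∀ k : ℕ, (∑ q ∈ Q k, (q : ℝ)) ≤ ((2 : ℝ) ^ k) ^ (1 / 2 - 3 * ε)) (D k : ℕ) (hD : X₀ ≤ D) (hD1 : 1 ≤ D) :
    ({P : ℕ | P ∈ Bad ε Q ∧ Nat.log 2 P = k ∧ D < P ∧ P < 2 * D}.ncard : ℝ) ≤ 12 * (D : ℝ) ^ (1 - ε) := by
  classical
  have hDr : (1 : ℝ) ≤ D := by exact_mod_cast hD1
  have h0 : (0 : ℝ) ≤ 12 * (D : ℝ) ^ (1 - ε) := by positivity
  rcases Set.eq_empty_or_nonempty {P : ℕ | P ∈ Bad ε Q ∧ Nat.log 2 P = k ∧ D < P ∧ P < 2 * D} with he | ⟨P₀, hP₀⟩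
  · rw [he, Set.ncard_empty]
    simpa using h0
  · have hk : 2 ^ k ≤ 2 * D := by
      obtain ⟨-, h1, h2, h3⟩ := hP₀
      have := Nat.pow_log_le_self 2 (x := P₀) (by omega)
      rw [h1] at this
      omega
    have hkr : (2 : ℝ) ^ k ≤ ((2 * D : ℕ) : ℝ) := by exact_mod_cast hk
    have h1 := hX₀ (2 * D) (by omega) (Q k) (hQ0 k) ((hQ k).trans (Real.rpow_le_rpow (by positivity) hkr (by linarith)))
    have hsub : {P : ℕ | P ∈ Bad ε Q ∧ Nat.log 2 P = k ∧ D < P ∧ P < 2 * D} ⊆ (exceptions ε (Q k) (2 * D) : Set ℕ) := by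
      rintro P ⟨⟨hP, hbad⟩, hlog, hP1, hP2⟩
      rw [hlog] at hbad
      unfold Good at hbad
      push Not at hbad
      obtain ⟨q, hq, r, n, i, hr, hc, hn, hpP, hi, hgap⟩ := hbad
      have hP0 : (0 : ℝ) < P := by exact_mod_cast hP.pos
      have hPx : (P : ℝ) ≤ ((2 * D : ℕ) : ℝ) := by exact_mod_cast hP2.le
      unfold exceptions
      rw [Finset.coe_filter]
      refine ⟨Finset.mem_Icc.2 ⟨hP.one_lt.le, hP2.le⟩, hP, q, hq, r, n, i, hr, hc, hn, hpP, ?_, ?_⟩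
      · exact hi.trans (Real.rpow_le_rpow hP0.le hPx hε.le)
      · refine lt_of_le_of_lt ?_ hgap
        exact Real.rpow_le_rpow_of_nonpos hP0 hPx (by linarith)
    have h2 := Set.ncard_le_ncard hsub (Finset.finite_toSet _)
    rw [Set.ncard_coe_finset] at h2
    calc ({P : ℕ | P ∈ Bad ε Q ∧ Nat.log 2 P = k ∧ D < P ∧ P < 2 * D}.ncard : ℝ) ≤
          ((exceptions ε (Q k) (2 * D)).card : ℝ) := by exact_mod_cast h2
      _ ≤ 6 * ((2 * D : ℕ) : ℝ) ^ (1 - ε) := h1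
      _ = 6 * ((2 : ℝ) ^ (1 - ε) * (D : ℝ) ^ (1 - ε)) := by
          push_cast
          rw [Real.mul_rpow (by norm_num) (by linarith)]
      _ ≤ 6 * (2 * (D : ℝ) ^ (1 - ε)) := by
          have h3 : (2 : ℝ) ^ (1 - ε) ≤ 2 := by
            calc (2 : ℝ) ^ (1 - ε) ≤ 2 ^ (1 : ℝ) := Real.rpow_le_rpow_of_exponent_le (by norm_num) (by linarith)
              _ = 2 := Real.rpow_one 2
          have h4 : 0 ≤ (D : ℝ) ^ (1 - ε) := by positivity
          nlinarith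
      _ = 12 * (D : ℝ) ^ (1 - ε) := by ring

/-- **Theorem.** Let `0 < ε ≤ 1/6`, `ν n / log n → ∞`, `θ < 1`, let `U` be a countable set of real numbers and let
`Q j k`, `j` in a countable set, be finite sets of moduli with sum at most `(2 ^ k) ^ (1/2 - 3ε)`. There is a set `E` of
Hausdorff dimension at most `(1 - ε) / (1 - θ)` such that for all `z > 1` outside `E`, all `b > 0` in `U` and all `j` ALL
large primes `P` with `|P - b z ^ (ν n)| ≤ z ^ (θ ν n)` for some `n` are good for the set `Q j k`, `2 ^ k ≤ P < 2 ^ (k+1)`: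
for all `q` in this set prime to `P` and all `i ≤ P ^ ε` the `i`-th prime `P'` after `P` in the class of `P` modulo `q`
satisfies `√P' - √P ≤ P ^ (-ε/2)`. -/
theorem result (ε : ℝ) (hε : 0 < ε) (hε1 : ε ≤ 1 / 6) (ν : ℕ → ℝ) (hν : Fast ν) (U : Set ℝ) (hU : U.Countable)
    (θ : ℝ) (hθ : θ < 1) (J : Type) [Countable J] (Q : J → ℕ → Finset ℕ) (hQ0 : ∀ j k, ∀ q ∈ Q j k, 0 < q)
    (hQ : ∀ (j : J) (k : ℕ), (∑ q ∈ Q j k, (q : ℝ)) ≤ ((2 : ℝ) ^ k) ^ (1 / 2 - 3 * ε)) :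
    ∃ E : Set ℝ, dimH E ≤ ENNReal.ofReal ((1 - ε) / (1 - θ)) ∧ ∀ z : ℝ, 1 < z → z ∉ E → ∀ b ∈ U, 0 < b → ∀ j : J,
      ∃ P₀ : ℝ, ∀ P : ℕ, P.Prime → P₀ ≤ P → Near ν θ b z P → Good ε (Q j (Nat.log 2 P)) P := by
  classical
  obtain ⟨X₀, hX₀⟩ := ManyProgressionsAtOnce.result.1 ε hε hε1
  obtain ⟨E, h1, h2⟩ := family_threshold (fun P : ℕ => (P : ℝ)) hν (s := 1 - ε) (by linarith) hθ U hU
    (J := J) (fun j => Bad ε (Q j)) (fun j η hη => by
      obtain ⟨M, hM0, hM⟩ := Pool.Agent.V11326.WD.dyadic (max X₀ 1) hη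
      refine ⟨M * 24, fun X hX => ⟨?_, ?_⟩⟩
      · exact (Set.finite_Icc 0 ⌊X⌋₊).subset fun t ht => ⟨Nat.zero_le _, Nat.le_floor ht.2⟩
      · refine hM (1 - ε) (by linarith) (Bad ε (Q j)) 24 (by norm_num) ?_ X hX
        intro D hD
        have hDX : X₀ ≤ D := (le_max_left _ _).trans hD
        have hD1 : 1 ≤ D := (le_max_right _ _).trans hD
        set k : ℕ := Nat.log 2 D with hk
        have hDk2 : D < 2 ^ (k + 1) := Nat.lt_pow_succ_log_self (by norm_num) D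
        have hfin : ∀ l : ℕ, {P : ℕ | P ∈ Bad ε (Q j) ∧ Nat.log 2 P = l ∧ D < P ∧ P < 2 * D}.Finite := fun l =>
          (Set.finite_Iio (2 * D)).subset fun P hP => hP.2.2.2
        have hsub : {d : ℕ | d ∈ Bad ε (Q j) ∧ D < d ∧ d < 2 * D} ⊆
            {P : ℕ | P ∈ Bad ε (Q j) ∧ Nat.log 2 P = k ∧ D < P ∧ P < 2 * D} ∪
              {P : ℕ | P ∈ Bad ε (Q j) ∧ Nat.log 2 P = k + 1 ∧ D < P ∧ P < 2 * D} := by
          rintro d ⟨hd, hd1, hd2⟩
          have h1 : k ≤ Nat.log 2 d := Nat.log_mono_right hd1.le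
          have h2 : Nat.log 2 d < k + 2 := by
            apply Nat.log_lt_of_lt_pow (by omega)
            calc d < 2 * D := hd2
              _ < 2 * 2 ^ (k + 1) := by omega
              _ = 2 ^ (k + 2) := by ring
          rcases Nat.lt_or_ge (Nat.log 2 d) (k + 1) with h3 | h3
          · exact Or.inl ⟨hd, by omega, hd1, hd2⟩
          · exact Or.inr ⟨hd, by omega, hd1, hd2⟩
        have h5 : ({d : ℕ | d ∈ Bad ε (Q j) ∧ D < d ∧ d < 2 * D}.ncard : ℝ) ≤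
            ({P : ℕ | P ∈ Bad ε (Q j) ∧ Nat.log 2 P = k ∧ D < P ∧ P < 2 * D}.ncard : ℝ) +
              ({P : ℕ | P ∈ Bad ε (Q j) ∧ Nat.log 2 P = k + 1 ∧ D < P ∧ P < 2 * D}.ncard : ℝ) := by
          exact_mod_cast (Set.ncard_le_ncard hsub ((hfin _).union (hfin _))).trans (Set.ncard_union_le _ _)
        have h6 := scale hε hX₀ hε1 (Q j) (hQ0 j) (hQ j) D k hDX hD1
        have h7 := scale hε hX₀ hε1 (Q j) (hQ0 j) (hQ j) D (k + 1) hDX hD1
        linarith)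
  refine ⟨E, h1, fun z hz hzE b hb hb0 j => ?_⟩
  obtain ⟨P₀, h3⟩ := h2 z hz hzE b hb hb0 j
  refine ⟨P₀, fun P hP hPP hn => ?_⟩
  by_contra hcon
  exact absurd (h3 P ⟨hP, hcon⟩ hn) (not_lt.2 hPP)

end Pool.Agent.Results.MP_82fd4a_nt.PrimesNearPowers
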